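import Mathlib
import Pool.Agent.H751R3.Beu.Conv

set_option autoImplicit false

/-!
# MP_c984ee_an : the spectrum of the Beurling operator on `L^p(w)` need not be continuous

For the weight `w(z) = |z|^(-3/2)`, which is in `A_p` for every `p > 1`, the Ahlfors-Beurling
operator on `L^p(w)` has the eigenvalue `1`.
-/

namespace Pool.Agent.Results.MP_c984ee_an.BeurlingEigenvalue

open MeasureTheory Filter Topology Set Complex

/-- The closed square with corners `a`, `a + b`, `a + b + i b`, `a + i b` (every square in the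
plane, in any position, is of this form with `b ≠ 0`). -/
def Square (a b : ℂ) : Set ℂ :=
  (fun z => a + b * z) '' {z : ℂ | 0 ≤ z.re ∧ z.re ≤ 1 ∧ 0 ≤ z.im ∧ z.im ≤ 1}

/-- `w` is a weight (locally integrable, positive almost everywhere) in the class `A_p`. -/
def IsAp (p : ℝ) (w : ℂ → ℝ) : Prop :=
  LocallyIntegrable w ∧ (∀ᵐ z : ℂ, 0 < w z) ∧
  ∃ C : ℝ, ∀ a b : ℂ, b ≠ 0 →
    ((∫⁻ z in Square a b, ENNReal.ofReal (w z)) / volume (Square a b)) *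
      ((∫⁻ z in Square a b, ENNReal.ofReal (w z ^ (-1 / (p - 1)))) / volume (Square a b)) ^
        (p - 1) ≤ ENNReal.ofReal C

/-- The measure `w dA`, so that `L^p(w)` is `L^p` of this measure. -/
noncomputable def weighted (w : ℂ → ℝ) : Measure ℂ :=
  volume.withDensity fun z => ENNReal.ofReal (w z)

/-- The principal value `-(1/π) p.v. ∫ f(ζ) / (z - ζ)² dA(ζ)` exists and is `v`. -/
def IsBeurlingValue (f : ℂ → ℂ) (z v : ℂ) : Prop :=
  (∀ ε : ℝ, 0 < ε → IntegrableOn (fun ζ : ℂ => f ζ / (z - ζ) ^ 2) {ζ : ℂ | ε < ‖z - ζ‖}) ∧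
  Tendsto (fun ε : ℝ => -(1 / (Real.pi : ℂ)) *
    ∫ ζ in {ζ : ℂ | ε < ‖z - ζ‖}, f ζ / (z - ζ) ^ 2) (𝓝[>] 0) (𝓝 v)

/-- `∂φ/∂z̄ = (∂φ/∂x + i ∂φ/∂y) / 2` -/
noncomputable def dbar (φ : ℂ → ℂ) (z : ℂ) : ℂ := (fderiv ℝ φ z 1 + I * fderiv ℝ φ z I) / 2

/-- `∂φ/∂z = (∂φ/∂x - i ∂φ/∂y) / 2` -/
noncomputable def dz (φ : ℂ → ℂ) (z : ℂ) : ℂ := (fderiv ℝ φ z 1 - I * fderiv ℝ φ z I) / 2

/-- `S` is a bounded operator on `L^p(w)`, written on representatives: it maps `L^p(w)` to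
itself, is linear, and is bounded. -/
def IsBounded (p : ℝ) (w : ℂ → ℝ) (S : (ℂ → ℂ) → ℂ → ℂ) : Prop :=
  (∀ f, MemLp f (ENNReal.ofReal p) (weighted w) → MemLp (S f) (ENNReal.ofReal p) (weighted w)) ∧
  (∀ f h : ℂ → ℂ, MemLp f (ENNReal.ofReal p) (weighted w) →
    MemLp h (ENNReal.ofReal p) (weighted w) → ∀ c : ℂ,
      S (fun z => c * f z + h z) =ᵐ[weighted w] fun z => c * S f z + S h z) ∧
  ∃ C : ℝ, ∀ f, MemLp f (ENNReal.ofReal p) (weighted w) →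
    eLpNorm (S f) (ENNReal.ofReal p) (weighted w) ≤
      ENNReal.ofReal C * eLpNorm f (ENNReal.ofReal p) (weighted w)

/-- `S (∂φ/∂z̄) = ∂φ/∂z` almost everywhere, for all `φ ∈ C_c^∞(ℂ)`. -/
def OnTestFunctions (w : ℂ → ℝ) (S : (ℂ → ℂ) → ℂ → ℂ) : Prop :=
  ∀ φ : ℂ → ℂ, ContDiff ℝ ((⊤ : ℕ∞) : WithTop ℕ∞) φ → HasCompactSupport φ →
    S (dbar φ) =ᵐ[weighted w] dz φ

/-- There are a weight `w` (namely `|z|^(-3/2)`) and a function `f` such that for every `p > 1`: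
`w ∈ A_p`, `f ∈ L^p(w)`, `f ≠ 0` in `L^p(w)`, and `T f = f`, both in the sense that the
principal value integral defining `T f (z)` exists and equals `f z` for every `z`, and in the
sense that every bounded operator on `L^p(w)` with `S (∂φ/∂z̄) = ∂φ/∂z` for all test functions
satisfies `S f = f`.  So `1` is an eigenvalue of `T` on `L^p(w)`. -/
theorem result : ∃ (w : ℂ → ℝ) (f : ℂ → ℂ), (∀ z, w z = ‖z‖ ^ (-(3 / 2) : ℝ)) ∧
    ∀ p : ℝ, 1 < p →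
      IsAp p w ∧
      MemLp f (ENNReal.ofReal p) (weighted w) ∧
      ¬ f =ᵐ[weighted w] 0 ∧
      (∀ z, IsBeurlingValue f z (f z)) ∧
      ∀ S : (ℂ → ℂ) → ℂ → ℂ, IsBounded p w S → OnTestFunctions w S → S f =ᵐ[weighted w] f := by
  refine ⟨H751R3.Beu.ww, H751R3.Beu.ef, fun z => rfl, fun p hp => ⟨?_, ?_, ?_, ?_, ?_⟩⟩
  · refine ⟨H751R3.Beu.locInt_ww, H751R3.Beu.ww_pos, 8 + 36 * H751R3.Beu.c1, fun a b hb => ?_⟩
    exact H751R3.Beu.ww_Ap hp a b hb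
  · exact H751R3.Beu.ef_memLp _
  · exact H751R3.Beu.ef_ne
  · intro z
    exact ⟨fun ε hε => H751R3.Beu.int_trunc H751R3.Beu.g0_cont H751R3.Beu.g0_compact z hε,
      H751R3.Beu.pv H751R3.Beu.g0_cont H751R3.Beu.g0_compact z⟩
  · rintro S ⟨h1, h2, C, h3⟩ hS
    exact H751R3.Beu.fix hp S h1 h2 h3 hS

end Pool.Agent.Results.MP_c984ee_an.BeurlingEigenvalue
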